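import Mathlib
import Pool.Agent.MP_3e7261_nt.FreeC

/-! Roy's conjecture on lines through combinations of small logarithms, in a rational direction,
with an arbitrary real or purely imaginary parameter. -/

set_option autoImplicit false

namespace Pool.Agent.Results.MP_3e7261_nt.FreeDirection

open Pool.Agent.MP_3e7261_nt

theorem result : ∀ (r : ℕ) (ε : ℝ), 0 < ε → ∃ c : ℝ, 0 < c ∧
    ∀ (K : Type) [Field K] [NumberField K] (φ : K →+* ℂ) (a b : Fin r → K) (H : ℝ)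
      (x : Fin r → ℂ) (C : Fin r → Matrix (Fin 4) (Fin 4) ℚ) (N : Matrix (Fin 4) (Fin 4) ℚ)
      (t : ℂ) (X M : Matrix (Fin 4) (Fin 4) ℂ),
      (∀ k, Height.mulHeight₁ (a k) ≤ H) →
      (∀ k, Height.mulHeight₁ (b k) ≤ H) →
      (∀ k, Complex.exp (x k) = φ (a k)) →
      (∀ k, (starRingEnd ℂ) (φ (a k)) = φ (b k)) →
      (∀ k, ‖x k‖ ≤ c ^ Module.finrank ℚ K * H ^ (-ε)) →
      (∀ k i j, Height.mulHeight₁ ((C k i j : ℚ) : K) ≤ H) →
      (∀ i j, Height.mulHeight₁ ((N i j : ℚ) : K) ≤ H) →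
      (∀ i j, X i j = ∑ k, ((C k i j : ℚ) : ℂ) * x k) →
      (∀ i j, M i j = X i j + t * ((N i j : ℚ) : ℂ)) →
      X.transpose = -X →
      N.transpose = -N →
      (t.re = 0 ∨ t.im = 0) →
      (X 0 1 * X 2 3 - X 0 2 * X 1 3 + X 0 3 * X 1 2).im ≠ 0 →
      (N 0 1 * N 2 3 - N 0 2 * N 1 3 + N 0 3 * N 1 2 ≠ 0 ∨
        (X 0 1 * X 2 3 - X 0 2 * X 1 3 + X 0 3 * X 1 2).re ≠ 0) →
      M.rank ≤ 2 →
      (¬ LinearIndependent ℚ (fun i : Fin 4 => (M i : Fin 4 → ℂ))) ∨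
      (∃ v : Fin 4 → ℚ, v ≠ 0 ∧
        (fun i : Fin 4 => ((v i : ℚ) : ℂ)) ∈ LinearMap.range M.mulVecLin) := by
  intro r ε hε
  obtain ⟨c, hc, h⟩ := free r hε
  refine ⟨c, hc, fun K _ _ φ a b H x C N t X M h1 h2 h3 h4 h5 h6 h7 hX hM sX sN ht p1 p2 hr => ?_⟩
  have e1 : X = comb (fun k => cst (C k)) x := Matrix.ext hX
  have e2 : M = X + t • cst N := Matrix.ext hM
  have sM : ∀ i j, M i j + M j i = 0 := fun i j => by
    have e3 : X j i = -X i j := congrFun (congrFun sX i) j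
    have e4 : N j i = -N i j := congrFun (congrFun sN i) j
    rw [hM, hM, e3, e4]
    push_cast
    ring
  obtain ⟨η, hη, hη'⟩ : ∃ η : ℤ, η.natAbs = 1 ∧ (starRingEnd ℂ) t = -η * t := by
    rcases ht with ht | ht
    · exact ⟨1, rfl, Complex.ext (by simp [ht]) (by simp)⟩
    · exact ⟨-1, rfl, Complex.ext (by simp) (by simp [ht])⟩
  refine roy_dual sM fun ψ => ?_
  have e3 := pf_eq_zero sM hr
  rw [e2, e1] at e3 ⊢
  exact h K φ a b H x C N t η h1 h2 h3 h4 h5 h6 h7 hη hη' (e1 ▸ p1) (e1 ▸ p2) e3 ψ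

end Pool.Agent.Results.MP_3e7261_nt.FreeDirection
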