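import Mathlib
import Pool.Agent.MP_3e7261_nt.FreeD

/-! Roy's conjecture for matrices in the rational span of small logarithms, with coefficients of
comparable height. -/

set_option autoImplicit false

namespace Pool.Agent.Results.MP_3e7261_nt.SpanLogs

open Pool.Agent.MP_3e7261_nt

theorem result : ∀ (r : ℕ) (ε : ℝ), 0 < ε → ∃ c : ℝ, 0 < c ∧
    ∀ (K : Type) [Field K] [NumberField K] (φ : K →+* ℂ) (a : Fin r → K) (H : ℝ)
      (x : Fin r → ℂ) (C : Fin r → Matrix (Fin 4) (Fin 4) ℚ) (M : Matrix (Fin 4) (Fin 4) ℂ),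
      (∀ k, Height.mulHeight₁ (a k) ≤ H) →
      (∀ k, Complex.exp (x k) = φ (a k)) →
      (∀ k, ‖x k‖ ≤ c ^ Module.finrank ℚ K * H ^ (-ε)) →
      (∀ k i j, Height.mulHeight₁ ((C k i j : ℚ) : K) ≤ H) →
      (∀ i j, M i j = ∑ k, ((C k i j : ℚ) : ℂ) * x k) →
      M.transpose = -M →
      M.rank ≤ 2 →
      (¬ LinearIndependent ℚ (fun i : Fin 4 => (M i : Fin 4 → ℂ))) ∨
      (∃ v : Fin 4 → ℚ, v ≠ 0 ∧
        (fun i : Fin 4 => ((v i : ℚ) : ℂ)) ∈ LinearMap.range M.mulVecLin) := by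
  intro r ε hε
  obtain ⟨c, hc, h⟩ := span r hε
  refine ⟨c, hc, fun K _ _ φ a H x C M h1 h2 h3 h4 hM sM hr => ?_⟩
  have e1 : M = comb (fun k => cst (C k)) x := Matrix.ext hM
  have s1 : ∀ i j, M i j + M j i = 0 := fun i j => by
    simp [show M j i = -M i j from congrFun (congrFun sM i) j]
  refine roy_dual s1 fun ψ => ?_
  have e3 := pf_eq_zero s1 hr
  rcases r with _ | r
  · simp [pf, hM]
  rw [e1] at e3 ⊢
  exact h K φ a H x C ((Height.one_le_mulHeight₁ _).trans (h1 0)) h1 h2 h3 h4 e3 ψ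

end Pool.Agent.Results.MP_3e7261_nt.SpanLogs
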